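import Pool.Agent.Q157.LD.Top
import Pool.Agent.Q53.LD.Sep

/-!
# Directedness of the components of virtually nilpotent groups

For finitely generated groups `G`, `H` write `G ⪯ H` if `H` is in the closure of the isomorphism class of `G` in the space
of marked groups. We prove that every connected component (of the undirected graph of `⪯`) which contains a virtually
nilpotent group is directed: every finite subset has an upper bound in the component.
-/

set_option autoImplicit false

namespace Pool.Agent.Results.MP_81bbc5_al.ComponentsDirected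

open Filter

/-- A finitely generated group. -/
structure FGGrp : Type 1 where
  carrier : Type
  [group : Group carrier]
  fg : Group.FG carrier

attribute [instance] FGGrp.group

/-- `G ⪯ H`: there are a generating `k`-tuple `t` of `H` and generating `k`-tuples `s 0, s 1, …` of `G` which converge to it
in the space of marked groups: every word is trivial at `s n` if and only if it is trivial at `t`, for all large `n`. -/
def Pre (G H : FGGrp) : Prop :=
  ∃ (k : ℕ) (t : Fin k → H.carrier), Subgroup.closure (Set.range t) = ⊤ ∧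
    ∃ s : ℕ → Fin k → G.carrier, (∀ n, Subgroup.closure (Set.range (s n)) = ⊤) ∧
      ∀ w : FreeGroup (Fin k), ∀ᶠ n in atTop, (FreeGroup.lift (s n) w = 1 ↔ FreeGroup.lift t w = 1)

/-- `C` is a connected component of the undirected graph of `⪯`. -/
def IsComponent (C : Set FGGrp) : Prop :=
  ∃ G : FGGrp, C = {H | Relation.EqvGen Pre G H}

lemma pre_iff (G H : FGGrp) : Pre G H ↔ Pool.Agent.Q157.LD.LeN G.carrier H.carrier :=
  (Pool.Agent.Q157.LD.seq G.carrier H.carrier).symm

lemma eqvGen_congr {α : Type 1} {r s : α → α → Prop} (h : ∀ a b, r a b ↔ s a b) (a b : α) :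
    Relation.EqvGen r a b ↔ Relation.EqvGen s a b := by
  have : r = s := by
    funext a b
    exact propext (h a b)
  rw [this]

theorem pair {G H : FGGrp} (h : Relation.EqvGen Pre G H)
    (hG : Group.IsVirtuallyNilpotent G.carrier) : ∃ U : FGGrp, Pre G U ∧ Pre H U := by
  obtain ⟨-, U, h1, h2⟩ := Pool.Agent.Q157.LD.pair Pool.Agent.Q53.LD.Sep.sep Pool.Agent.Q94.LD.up
    Pool.Agent.Q94.LD.down Pool.Agent.Q157.LD.pre (fun G : FGGrp => G.carrier) (fun G => G.fg)
    (fun U _ hU => ⟨⟨U, hU⟩, ⟨MulEquiv.refl U⟩⟩) ((eqvGen_congr pre_iff G H).1 h) hG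
  exact ⟨U, (pre_iff _ _).2 h1, (pre_iff _ _).2 h2⟩

theorem pre_trans {G H K : FGGrp} (h1 : Pre G H) (h2 : Pre H K) : Pre G K :=
  (pre_iff _ _).2 (Pool.Agent.Q157.LD.pre _ _ _ ((pre_iff _ _).1 h1) ((pre_iff _ _).1 h2))

theorem vn {G H : FGGrp} (h : Relation.EqvGen Pre G H)
    (hG : Group.IsVirtuallyNilpotent G.carrier) : Group.IsVirtuallyNilpotent H.carrier :=
  (Pool.Agent.Q157.LD.pair Pool.Agent.Q53.LD.Sep.sep Pool.Agent.Q94.LD.up
    Pool.Agent.Q94.LD.down Pool.Agent.Q157.LD.pre (fun G : FGGrp => G.carrier) (fun G => G.fg)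
    (fun U _ hU => ⟨⟨U, hU⟩, ⟨MulEquiv.refl U⟩⟩) ((eqvGen_congr pre_iff G H).1 h) hG).1

/-- A connected component which contains a virtually nilpotent group is directed. -/
theorem result (C : Set FGGrp) (hC : IsComponent C)
    (hvn : ∃ G ∈ C, Group.IsVirtuallyNilpotent G.carrier) (F : Set FGGrp) (hF : F.Finite)
    (hFC : F ⊆ C) : ∃ U ∈ C, ∀ G ∈ F, Pre G U := by
  obtain ⟨G₀, rfl⟩ := hC
  obtain ⟨N, hN, hNv⟩ := hvn
  have hall : ∀ G, Relation.EqvGen Pre G₀ G → Group.IsVirtuallyNilpotent G.carrier := fun G hG =>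
    vn ((Relation.EqvGen.symm _ _ hN).trans _ _ _ hG) hNv
  induction F, hF using Set.Finite.induction_on with
  | empty => exact ⟨N, hN, fun G hG => absurd hG (Set.notMem_empty G)⟩
  | insert _ _ ih =>
    rename_i G F _ _
    obtain ⟨U, hU, hUF⟩ := ih fun x hx => hFC (Set.mem_insert_of_mem _ hx)
    have hG : Relation.EqvGen Pre G₀ G := hFC (Set.mem_insert _ _)
    obtain ⟨V, h1, h2⟩ := pair ((Relation.EqvGen.symm _ _ hG).trans _ _ _ hU) (hall G hG)
    refine ⟨V, hG.trans _ _ _ (Relation.EqvGen.rel _ _ h1), fun x hx => ?_⟩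
    rcases Set.mem_insert_iff.1 hx with rfl | hx
    · exact h1
    · exact pre_trans (hUF x hx) h2

end Pool.Agent.Results.MP_81bbc5_al.ComponentsDirected
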